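import Pool.Agent.PSS.StmtsS2

/-!
# EOR: the twist can be chosen constant on orbits
-/

namespace Pool.Agent.PSS.S2.H76

open Pool.Agent.PSS
open Pool.Agent.PFC (tw IsTv)
open Pool.Agent.PFD.D2b (FrR)

theorem stab_smul {V Ω : Type} [CommGroup V] [MulAction (V × V) Ω] (p : V × V) (ω : Ω) :
    MulAction.stabilizer (V × V) (p • ω) = MulAction.stabilizer (V × V) ω := by
  ext g
  rw [MulAction.mem_stabilizer_iff, MulAction.mem_stabilizer_iff, smul_smul, mul_comm g p,
    ← smul_smul]
  exact ⟨fun h => smul_left_cancel p h, fun h => by rw [h]⟩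

theorem eor : EorStmt := by
  intro R V E A Ω _ _ _ _ _ _ _ φ α b c hP
  classical
  have hne : Nonempty (E × Subgroup V) := ⟨(1, ⊥)⟩
  have key : ∃ F : Subgroup (V × V) → E × Subgroup V, ∀ ω : Ω,
      MulAction.stabilizer (V × V) ω
        = tw (φ (F (MulAction.stabilizer (V × V) ω)).1).toMonoidHom
            (F (MulAction.stabilizer (V × V) ω)).2 := by
    refine ⟨fun T => if h : ∃ p : E × Subgroup V, T = tw (φ p.1).toMonoidHom p.2
      then h.choose else Classical.arbitrary _, fun ω => ?_⟩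
    have h : ∃ p : E × Subgroup V,
        MulAction.stabilizer (V × V) ω = tw (φ p.1).toMonoidHom p.2 := by
      obtain ⟨e, S, hS⟩ := hP.st ω
      exact ⟨(e, S), hS⟩
    simp only [dif_pos h]
    exact h.choose_spec
  obtain ⟨F, hF⟩ := key
  refine ⟨fun ω => (F (MulAction.stabilizer (V × V) ω)).1,
    fun ω => (F (MulAction.stabilizer (V × V) ω)).2, fun p ω => ?_, fun p ω => ?_, hF⟩
  · simp only [stab_smul]
  · simp only [stab_smul]

end Pool.Agent.PSS.S2.H76
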